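import Pool.Agent.Helper37.GWA.RSD
import Pool.Agent.Helper67.GWA.TRA
import Pool.Agent.Helper10.GWA.Cyc

/-!
# GWA, module TRF: `link_ge` (core, with the results of TRB and TRC as hypotheses)
-/

namespace GWA.TRF

open GWA

/-! ### arithmetic of `ℤ[i]` -/

theorem dvd_iff_of_assoc {π : GaussianInt} {q : ℕ} (hπq : Associated π (q : GaussianInt))
    (z : GaussianInt) : π ∣ z ↔ (q : ℤ) ∣ z.re ∧ (q : ℤ) ∣ z.im := by
  rw [hπq.dvd_iff_dvd_left]
  have := Zsqrtd.intCast_dvd (d := -1) (q : ℤ) z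
  rw [← this]
  norm_cast

theorem irreducible_lam : Irreducible (lam : GaussianInt) := by
  have hn : (lam : GaussianInt).norm.natAbs = 2 := by decide
  constructor
  · intro hu
    rw [← Zsqrtd.norm_eq_one_iff, hn] at hu
    norm_num at hu
  · intro a b hab
    have h1 : (a.norm * b.norm).natAbs = 2 := by rw [← Zsqrtd.norm_mul, ← hab, hn]
    rw [Int.natAbs_mul] at h1
    have h2 : a.norm.natAbs ∣ 2 := ⟨_, h1.symm⟩
    rcases (Nat.dvd_prime Nat.prime_two).1 h2 with h3 | h3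
    · left
      exact Zsqrtd.norm_eq_one_iff.1 h3
    · right
      rw [h3] at h1
      exact Zsqrtd.norm_eq_one_iff.1 (by omega)

theorem lam_sq : (lam : GaussianInt) ^ 2 = 2 * gi := by decide

theorem lam_pow (j : ℕ) : (lam : GaussianInt) ^ (2 * j) = gi ^ j * 2 ^ j := by
  rw [pow_mul, lam_sq, mul_pow, mul_comm]

/-! ### residues in the prime field -/

/-- the residue of `x` is an integer -/
def IM {K : Type} [NormedField K] (x : K) : Prop := ∃ n : ℤ, ‖x - (n : K)‖ < 1

section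

variable {K : Type} [NormedField K] [Algebra GaussianInt K] {π : GaussianInt}

theorem IM.int {K : Type} [NormedField K] (n : ℤ) : IM (n : K) := ⟨n, by simp⟩

theorem IM.ofNat {K : Type} [NormedField K] (n : ℕ) [n.AtLeastTwo] : IM (OfNat.ofNat n : K) :=
  ⟨(OfNat.ofNat n : ℕ), by simp⟩

theorem IM.one {K : Type} [NormedField K] : IM (1 : K) := ⟨1, by simp⟩

include π

theorem IM.le (h : LocHyp K π) {x : K} (hx : IM x) : ‖x‖ ≤ 1 := by
  obtain ⟨n, hn⟩ := hx
  have h1 := h.ultra (x - n) n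
  rw [sub_add_cancel] at h1
  exact h1.trans (max_le hn.le (h.norm_intCast_le n))

theorem IM.add (h : LocHyp K π) {x y : K} (hx : IM x) (hy : IM y) : IM (x + y) := by
  obtain ⟨n, hn⟩ := hx
  obtain ⟨m, hm⟩ := hy
  refine ⟨n + m, ?_⟩
  have h1 := h.ultra (x - n) (y - m)
  have h2 : x + y - ((n + m : ℤ) : K) = (x - n) + (y - m) := by push_cast; ring
  rw [h2]
  exact h1.trans_lt (max_lt hn hm)

omit [Algebra GaussianInt K] in
omit π in
theorem IM.neg {x : K} (hx : IM x) : IM (-x) := by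
  obtain ⟨n, hn⟩ := hx
  refine ⟨-n, ?_⟩
  have h2 : -x - ((-n : ℤ) : K) = -(x - n) := by push_cast; ring
  rw [h2, norm_neg]
  exact hn

theorem IM.sub (h : LocHyp K π) {x y : K} (hx : IM x) (hy : IM y) : IM (x - y) := by
  rw [sub_eq_add_neg]
  exact hx.add h hy.neg

theorem IM.mul (h : LocHyp K π) {x y : K} (hx : IM x) (hy : IM y) : IM (x * y) := by
  have hy1 := hy.le h
  obtain ⟨n, hn⟩ := hx
  obtain ⟨m, hm⟩ := hy
  refine ⟨n * m, ?_⟩
  have h2 : x * y - ((n * m : ℤ) : K) = (x - n) * y + n * (y - m) := by push_cast; ring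
  rw [h2]
  refine (h.ultra _ _).trans_lt (max_lt ?_ ?_)
  · rw [norm_mul]
    nlinarith [norm_nonneg (x - n), norm_nonneg y]
  · rw [norm_mul]
    have h3 := h.norm_intCast_le n
    nlinarith [norm_nonneg (y - m), norm_nonneg (n : K)]

theorem IM.sq (h : LocHyp K π) {x : K} (hx : IM x) : IM (x ^ 2) := by
  rw [pow_two]
  exact hx.mul h hx

variable {q : ℕ}

theorem norm_int_lt_iff (h : LocHyp K π) (hπq : Associated π (q : GaussianInt)) (n : ℤ) :
    ‖(n : K)‖ < 1 ↔ (q : ℤ) ∣ n := by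
  have h1 := h.norm_lt_one_iff (n : GaussianInt)
  rw [map_intCast] at h1
  rw [h1, dvd_iff_of_assoc hπq]
  simp

theorem IM.inv (h : LocHyp K π) (hq : q.Prime) (hπq : Associated π (q : GaussianInt)) {x : K}
    (hx : IM x) (hx1 : ‖x‖ = 1) : IM x⁻¹ := by
  obtain ⟨n, hn⟩ := hx
  have hnq : ¬ (q : ℤ) ∣ n := by
    intro hd
    rw [← norm_int_lt_iff h hπq] at hd
    have h1 := h.ultra (x - n) n
    rw [sub_add_cancel, hx1] at h1
    exact absurd (max_lt hn hd) (not_lt.2 h1)
  have hcop : IsCoprime (q : ℤ) n := (Nat.prime_iff_prime_int.1 hq).irreducible.coprime_iff_not_dvd.2 hnq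
  obtain ⟨u, v, huv⟩ := hcop
  refine ⟨v, ?_⟩
  have hx0 : x ≠ 0 := by
    rintro rfl
    rw [norm_zero] at hx1
    exact zero_ne_one hx1
  have huv' : (u : K) * (q : K) + v * n = 1 := by exact_mod_cast congrArg (Int.cast (R := K)) huv
  have h2 : x⁻¹ - (v : K) = x⁻¹ * ((u : K) * ((q : ℤ) : K) + -(v * (x - n))) := by
    field_simp
    push_cast
    linear_combination -huv'
  rw [h2, norm_mul, norm_inv, hx1, inv_one, one_mul]
  have hq1 : ‖((q : ℤ) : K)‖ < 1 := (norm_int_lt_iff h hπq q).2 dvd_rfl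
  refine (h.ultra _ _).trans_lt (max_lt ?_ ?_)
  · rw [norm_mul]
    have h3 := h.norm_intCast_le u
    nlinarith [norm_nonneg (u : K), norm_nonneg ((q : ℤ) : K)]
  · rw [norm_neg, norm_mul]
    have h3 := h.norm_intCast_le v
    nlinarith [norm_nonneg (v : K), norm_nonneg (x - n)]

/-- numbers with imaginary part a unit are not integers -/
theorem not_int (h : LocHyp K π) (hπq : Associated π (q : GaussianInt)) {u v : K} (hu : IM u)
    (hv : IM v) (hv1 : ‖v‖ = 1) :
    ‖u + v * II K‖ ≤ 1 ∧ ∀ n : ℤ, ‖u + v * II K - n‖ = 1 := by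
  have hu1 := hu.le h
  have hle : ‖u + v * II K‖ ≤ 1 := by
    refine (h.ultra _ _).trans (max_le hu1 ?_)
    rw [norm_mul, LocHyp.norm_II, mul_one, hv1]
  refine ⟨hle, fun n => ?_⟩
  obtain ⟨a, ha⟩ := hu
  obtain ⟨b, hb⟩ := hv
  have hbq : ¬ (q : ℤ) ∣ b := by
    intro hd
    rw [← norm_int_lt_iff h hπq] at hd
    have h1 := h.ultra (v - b) b
    rw [sub_add_cancel, hv1] at h1
    exact absurd (max_lt hb hd) (not_lt.2 h1)
  have hz : ¬ π ∣ (⟨a - n, b⟩ : GaussianInt) := by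
    rw [dvd_iff_of_assoc hπq]
    rintro ⟨-, h2⟩
    exact hbq h2
  have h1 := h.norm_eq_one hz
  rw [LocHyp.algebraMap_eq] at h1
  have h2 : u + v * II K - n = (((a - n : ℤ) : K) + (b : ℤ) * II K) +
      ((u - a) + (v - b) * II K) := by
    push_cast
    ring
  rw [h2, h.norm_sum_eq, h1]
  rw [h1]
  refine (h.ultra _ _).trans_lt (max_lt ha ?_)
  rw [norm_mul, LocHyp.norm_II, mul_one]
  exact hb

/-- integers prime to `q` are squares -/
theorem exists_sqrt_int (h : LocHyp K π) (hodd : ¬ π ∣ 2) (hq : q.Prime) (hq4 : q % 4 = 3)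
    (hπq : Associated π (q : GaussianInt)) {m : ℤ} (hm : ¬ (q : ℤ) ∣ m) :
    ∃ s : K, s ^ 2 = m := by
  have : Fact q.Prime := ⟨hq⟩
  have key : ∀ m : ℤ, ¬ (q : ℤ) ∣ m → IsSquare ((m : ZMod q)) → ∃ s : K, s ^ 2 = m := by
    rintro m hm ⟨r, hr⟩
    obtain ⟨r', rfl⟩ := ZMod.intCast_surjective r
    have h1 : (q : ℤ) ∣ m - r' ^ 2 := by
      rw [← ZMod.intCast_zmod_eq_zero_iff_dvd (m - r' ^ 2) q]
      push_cast
      rw [hr]
      ring
    have hr' : ¬ (q : ℤ) ∣ r' := by
      intro hd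
      apply hm
      have : (q : ℤ) ∣ (m - r' ^ 2) + r' * r' := dvd_add h1 (hd.mul_right _)
      have h2 : m - r' ^ 2 + r' * r' = m := by ring
      rwa [h2] at this
    have hn : ‖(r' : K)‖ = 1 := by
      apply le_antisymm (h.norm_intCast_le r')
      rw [← not_lt, norm_int_lt_iff h hπq]
      exact hr'
    have hr0 : (r' : K) ≠ 0 := by
      intro h0
      rw [h0, norm_zero] at hn
      exact zero_ne_one hn
    have h4 : ‖(4 : K)‖ = 1 := by
      have : (4 : K) = 2 ^ 2 := by norm_num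
      rw [this, norm_pow, h.norm_two hodd, one_pow]
    have h5 : ‖(m : K) / r' ^ 2 - 1‖ < ‖(4 : K)‖ := by
      have h6 : (m : K) / r' ^ 2 - 1 = ((m - r' ^ 2 : ℤ) : K) / r' ^ 2 := by
        push_cast
        field_simp
      rw [h6, norm_div, norm_pow, hn, h4, one_pow, div_one, norm_int_lt_iff h hπq]
      exact h1
    obtain ⟨y, hy, -⟩ := h.sqrt h5
    refine ⟨r' * y, ?_⟩
    rw [mul_pow, hy]
    field_simp
  have hm0 : (m : ZMod q) ≠ 0 := by
    rw [Ne, ZMod.intCast_zmod_eq_zero_iff_dvd]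
    exact hm
  by_cases hs : IsSquare ((m : ZMod q))
  · exact key m hm hs
  · have hs' : IsSquare (((-m : ℤ) : ZMod q)) := by
      have hq2 : ringChar (ZMod q) ≠ 2 := by
        rw [ZMod.ringChar_zmod_n]
        rintro rfl
        norm_num at hq4
      have h1 : quadraticChar (ZMod q) (m : ZMod q) = -1 :=
        quadraticChar_neg_one_iff_not_isSquare.2 hs
      have h2 : quadraticChar (ZMod q) (-1 : ZMod q) = -1 := by
        rw [quadraticChar_neg_one_iff_not_isSquare, ZMod.exists_sq_eq_neg_one_iff]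
        simp [hq4]
      have h3 : quadraticChar (ZMod q) (((-m : ℤ) : ZMod q)) = 1 := by
        have : (((-m : ℤ) : ZMod q)) = (-1) * (m : ZMod q) := by push_cast; ring
        rw [this, map_mul, h1, h2]
        norm_num
      rwa [quadraticChar_one_iff_isSquare] at h3
      push_cast
      exact neg_ne_zero.2 hm0
    obtain ⟨s, hs1⟩ := key (-m) (by rwa [dvd_neg]) hs'
    refine ⟨II K * s, ?_⟩
    rw [mul_pow, II_sq, hs1]
    push_cast
    ring

omit [Algebra GaussianInt K] in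
omit π in
theorem not_dvd_sq_add_one (hq : q.Prime) (hq4 : q % 4 = 3) (r : ℤ) : ¬ (q : ℤ) ∣ r ^ 2 + 1 := by
  have : Fact q.Prime := ⟨hq⟩
  intro hd
  rw [← ZMod.intCast_zmod_eq_zero_iff_dvd] at hd
  push_cast at hd
  have h1 : IsSquare (-1 : ZMod q) := ⟨(r : ZMod q), by linear_combination -hd⟩
  rw [ZMod.exists_sq_eq_neg_one_iff] at h1
  exact h1 hq4

omit [Algebra GaussianInt K] in
omit π in
theorem exists_r (hq : q.Prime) (hq11 : 11 ≤ q) : ∃ r : ℤ, ¬ (q : ℤ) ∣ r ^ 3 - r ∧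
    ¬ (q : ℤ) ∣ r ^ 2 - 2 * r - 1 ∧ ¬ (q : ℤ) ∣ r ^ 2 + 2 * r - 1 := by
  have : Fact q.Prime := ⟨hq⟩
  classical
  have h2 : ∀ c : ZMod q, (Finset.univ.filter fun r : ZMod q => (r + c) ^ 2 = 2).card ≤ 2 := by
    intro c
    by_cases hne : ∃ s : ZMod q, (s + c) ^ 2 = 2
    · obtain ⟨s, hs⟩ := hne
      have : (Finset.univ.filter fun r : ZMod q => (r + c) ^ 2 = 2) ⊆ {s, -2 * c - s} := by
        intro r hr
        rw [Finset.mem_filter] at hr
        have h3 : (r - s) * (r + 2 * c + s) = 0 := by linear_combination hr.2 - hs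
        rw [Finset.mem_insert, Finset.mem_singleton]
        rcases mul_eq_zero.1 h3 with h4 | h4
        · left; linear_combination h4
        · right; linear_combination h4
      exact (Finset.card_le_card this).trans Finset.card_le_two
    · rw [Finset.filter_eq_empty_iff.2]
      · simp
      · intro r _ hr
        exact hne ⟨r, hr⟩
  set B : Finset (ZMod q) := {0, 1, -1} ∪ ((Finset.univ.filter fun r : ZMod q => (r + -1) ^ 2 = 2) ∪
    (Finset.univ.filter fun r : ZMod q => (r + 1) ^ 2 = 2)) with hB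
  have hBc : B.card < Fintype.card (ZMod q) := by
    rw [ZMod.card]
    have e1 := Finset.card_union_le ({0, 1, -1} : Finset (ZMod q))
      ((Finset.univ.filter fun r : ZMod q => (r + -1) ^ 2 = 2) ∪
        (Finset.univ.filter fun r : ZMod q => (r + 1) ^ 2 = 2))
    have e2 := Finset.card_union_le (Finset.univ.filter fun r : ZMod q => (r + -1) ^ 2 = 2)
      (Finset.univ.filter fun r : ZMod q => (r + 1) ^ 2 = 2)
    have e3 := h2 (-1)
    have e4 := h2 1
    have e5 : ({0, 1, -1} : Finset (ZMod q)).card ≤ 3 := Finset.card_le_three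
    rw [hB]
    omega
  obtain ⟨r, hr⟩ : ∃ r : ZMod q, r ∉ B := by
    by_contra hcon
    push Not at hcon
    have : B = Finset.univ := Finset.eq_univ_iff_forall.2 hcon
    rw [this, Finset.card_univ] at hBc
    exact lt_irrefl _ hBc
  obtain ⟨r', rfl⟩ := ZMod.intCast_surjective r
  simp only [hB, Finset.mem_union, Finset.mem_insert, Finset.mem_singleton, Finset.mem_filter,
    Finset.mem_univ, true_and, not_or] at hr
  obtain ⟨⟨a1, a2, a3⟩, a4, a5⟩ := hr
  refine ⟨r', ?_, ?_, ?_⟩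
  · rw [← ZMod.intCast_zmod_eq_zero_iff_dvd]
    push_cast
    intro h0
    have h3 : (r' : ZMod q) * ((r' - 1) * (r' + 1)) = 0 := by linear_combination h0
    rcases mul_eq_zero.1 h3 with h4 | h4
    · exact a1 h4
    · rcases mul_eq_zero.1 h4 with h5 | h5
      · exact a2 (by linear_combination h5)
      · exact a3 (by linear_combination h5)
  · rw [← ZMod.intCast_zmod_eq_zero_iff_dvd]
    push_cast
    intro h0
    exact a4 (by linear_combination h0)
  · rw [← ZMod.intCast_zmod_eq_zero_iff_dvd]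
    push_cast
    intro h0
    exact a5 (by linear_combination h0)

theorem norm_int_eq (h : LocHyp K π) (hπq : Associated π (q : GaussianInt)) {n : ℤ}
    (hn : ¬ (q : ℤ) ∣ n) : ‖(n : K)‖ = 1 := by
  apply le_antisymm (h.norm_intCast_le n)
  rw [← not_lt, norm_int_lt_iff h hπq]
  exact hn

theorem norm_sq_add_one (h : LocHyp K π) (hq : q.Prime) (hq4 : q % 4 = 3)
    (hπq : Associated π (q : GaussianInt)) {x : K} (hx : IM x) : ‖x ^ 2 + 1‖ = 1 := by
  have hx1 := hx.le h
  obtain ⟨n, hn⟩ := hx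
  have h1 : ‖((n ^ 2 + 1 : ℤ) : K)‖ = 1 := norm_int_eq h hπq (not_dvd_sq_add_one hq hq4 n)
  have h2 : x ^ 2 + 1 = ((n ^ 2 + 1 : ℤ) : K) + (x - n) * (x + n) := by push_cast; ring
  rw [h2, h.norm_sum_eq, h1]
  rw [h1, norm_mul]
  have h3 : ‖x + n‖ ≤ 1 := (h.ultra _ _).trans (max_le hx1 (h.norm_intCast_le n))
  nlinarith [norm_nonneg (x - n), norm_nonneg (x + n)]

theorem norm_four (h : LocHyp K π) (hodd : ¬ π ∣ 2) : ‖(4 : K)‖ = 1 := by
  have : (4 : K) = 2 ^ 2 := by norm_num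
  rw [this, norm_pow, h.norm_two hodd, one_pow]

/-- unit factors -/
theorem norm_of_ff (h : LocHyp K π) {x : K} (hx : ‖x‖ ≤ 1) (hf : ‖ff x‖ = 1) :
    ‖x‖ = 1 ∧ ‖x ^ 2 - 1‖ = 1 := by
  have h1 : ff x = x * (x ^ 2 - 1) := by unfold ff; ring
  rw [h1, norm_mul] at hf
  have h2 : ‖x ^ 2 - 1‖ ≤ 1 := by
    refine (h.norm_sub_le _ _).trans (max_le ?_ (by rw [norm_one]))
    rw [norm_pow]
    exact pow_le_one₀ (norm_nonneg _) hx
  constructor
  · apply le_antisymm hx
    nlinarith [norm_nonneg x, norm_nonneg (x ^ 2 - 1)]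
  · apply le_antisymm h2
    nlinarith [norm_nonneg x, norm_nonneg (x ^ 2 - 1)]

theorem norm_ff_le (h : LocHyp K π) {x : K} (hx : ‖x‖ ≤ 1) : ‖ff x‖ ≤ 1 := by
  unfold ff
  refine (h.norm_sub_le _ _).trans (max_le ?_ hx)
  rw [norm_pow]
  exact pow_le_one₀ (norm_nonneg _) hx

section curve

variable [NeZero (2 : K)] [DecidableEq K]

omit [NeZero (2 : K)] [DecidableEq K] in
theorem not_mem_nb (h : LocHyp K π) {d : K} (hd : d ≠ 0) {P : E d} (hP : P ∉ nb π d 0) :
    P ≠ 0 ∧ ‖nx P‖ ≤ 1 := by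
  rw [h.mem_nb_zero_iff hd, not_or, not_lt] at hP
  exact hP

/-- doubling -/
theorem dbl (h : LocHyp K π) (hodd : ¬ π ∣ 2) (hq : q.Prime) (hq4 : q % 4 = 3)
    (hπq : Associated π (q : GaussianInt)) {d : K} (hd : d ≠ 0) {Q : E d} (hQ : Q ∉ nb π d 0)
    (hI : IM (nx Q)) (hQ2 : Q + Q ∉ nb π d 0) : ‖ff (nx Q)‖ = 1 ∧ IM (nx (Q + Q)) := by
  obtain ⟨hQ0, hQ1⟩ := not_mem_nb h hd hQ
  have h4 := norm_four h hodd
  have hsq := norm_sq_add_one h hq hq4 hπq hI
  have hff : ‖ff (nx Q)‖ = 1 := by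
    apply le_antisymm (norm_ff_le h hQ1)
    by_contra hlt
    push Not at hlt
    apply hQ2
    by_cases h0 : ff (nx Q) = 0
    · have : Q + Q = 0 := by
        apply add_self_of_yc
        by_contra hy
        exact ((yc_ne_iff hd Q).1 hy) h0
      rw [this]
      exact zero_mem_nbh _ _ _
    · obtain ⟨-, h1⟩ := nx_double hd hQ0 h0
      rw [h.mem_nb_zero_iff hd]
      right
      have h2 := congrArg norm h1
      rw [norm_mul, norm_mul, h4, one_mul, norm_pow, hsq, one_pow] at h2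
      have h3 : 0 < ‖ff (nx Q)‖ := norm_pos_iff.2 h0
      by_contra hc
      push Not at hc
      nlinarith [norm_nonneg (nx (Q + Q))]
  refine ⟨hff, ?_⟩
  have h0 : ff (nx Q) ≠ 0 := by
    intro h0
    rw [h0, norm_zero] at hff
    exact zero_ne_one hff
  obtain ⟨-, h1⟩ := nx_double hd hQ0 h0
  have hne : 4 * ff (nx Q) ≠ 0 := mul_ne_zero four_ne' h0
  have h2 : nx (Q + Q) = (nx Q ^ 2 + 1) ^ 2 * (4 * ff (nx Q))⁻¹ := by
    rw [eq_mul_inv_iff_mul_eq₀ hne]
    exact h1
  rw [h2]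
  have hfI : IM (ff (nx Q)) := by
    unfold ff
    have e3 : nx Q ^ 3 = nx Q ^ 2 * nx Q := by ring
    rw [e3]
    exact ((hI.sq h).mul h hI).sub h hI
  refine (((hI.sq h).add h IM.one).sq h).mul h (IM.inv h hq hπq ((IM.ofNat 4).mul h hfI) ?_)
  rw [norm_mul, h4, hff, mul_one]

end curve

end

section TRF

variable {K : Type} [NormedField K] [Algebra GaussianInt K] [NeZero (2 : K)] [DecidableEq K]
  {π : GaussianInt} {A : Set (FLD K π).Sys}

/-- `link_ge` with the results of TRB and TRC as hypotheses -/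
theorem _root_.GWA.LocHyp.link_ge_of (h : LocHyp K π) (hodd : ¬ π ∣ 2)
    (hA : (FLD K π).LStable A) (hRint : ∀ n : ℤ, Rc A (n : K))
    (hRcongr : ∀ c c' : K, ‖c - c'‖ < 1 → Rc A c → Rc A c')
    (hClRc : ∀ (d : Kˣ) (P : E (d : K)), P ∉ nb π (d : K) 0 → Rc A (nx P) → Cl A d P 0)
    (hRcCl : ∀ (d : Kˣ) (P : E (d : K)), P ≠ 0 → ‖nx P‖ = 1 → ‖nx P - 1‖ = 1 →
      ‖nx P + 1‖ = 1 → Cl A d P 0 → Rc A (nx P)) {q : ℕ} (hq : q.Prime) (hq4 : q % 4 = 3)
    (hπq : Associated π (q : GaussianInt)) (hq11 : 11 ≤ q) :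
    ∃ c : K, ‖c‖ ≤ 1 ∧ (∀ n : ℤ, ‖c - n‖ = 1) ∧ Rc A c := by
  -- the conclusion for a point with `Cl A d Q 0`
  have fin : ∀ (d : Kˣ) (Q : E (d : K)) (u v : K), Q ≠ 0 → Cl A d Q 0 → IM u → IM v → ‖v‖ = 1 →
      nx Q = u + v * II K → ∃ c : K, ‖c‖ ≤ 1 ∧ (∀ n : ℤ, ‖c - n‖ = 1) ∧ Rc A c := by
    intro d Q u v hQ hC hu hv hv1 hx
    obtain ⟨h1, h2⟩ := not_int h hπq hu hv hv1
    rw [← hx] at h1 h2
    refine ⟨nx Q, h1, h2, ?_⟩
    apply hRcCl d Q hQ _ _ _ hC
    · have := h2 0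
      rwa [Int.cast_zero, sub_zero] at this
    · have := h2 1
      rwa [Int.cast_one] at this
    · have := h2 (-1)
      rwa [Int.cast_neg, Int.cast_one, sub_neg_eq_add] at this
  obtain ⟨r, hr1, hr2, hr3⟩ := exists_r hq hq11
  have hr0 := not_dvd_sq_add_one hq hq4 r
  obtain ⟨s, hs⟩ := exists_sqrt_int h hodd hq hq4 hπq hr1
  obtain ⟨d, hd1⟩ : ∃ d : Kˣ, (d : K) = 1 := ⟨1, rfl⟩
  have hd := d.ne_zero
  have hfr : ff (r : K) = ((r ^ 3 - r : ℤ) : K) := by unfold ff; push_cast; ring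
  have hfr1 : ‖ff (r : K)‖ = 1 := by rw [hfr]; exact norm_int_eq h hπq hr1
  have hfr0 : ff (r : K) ≠ 0 := by
    intro h0
    rw [h0, norm_zero] at hfr1
    exact zero_ne_one hfr1
  obtain ⟨P, hP0, hPx, hPy⟩ := exists_pt hd (x := (r : K)) (s := s) (by rw [hd1, one_mul, hfr, hs])
  have hrI : IM (r : K) := IM.int r
  have hxc : ∀ Q : E (d : K), xc Q = nx Q := fun Q =>
    (xc_eq hd Q).trans ((congrArg (· * nx Q) hd1).trans (one_mul _))
  have hd3 : (d : K) ^ 3 = 1 := by rw [hd1, one_pow]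
  have hd2 : -(d : K) ^ 2 = -1 := by rw [hd1, one_pow]
  have hP : P ∉ nb π (d : K) 0 := by
    rw [h.mem_nb_zero_iff hd, not_or, not_lt, hPx]
    exact ⟨hP0, h.norm_intCast_le r⟩
  have hClP : Cl A d P 0 := by
    apply hClRc d P hP
    rw [hPx]
    exact hRint r
  obtain ⟨hPP0, hdbl⟩ := nx_double hd hP0 (by rw [hPx]; exact hfr0)
  rw [hPx] at hdbl
  have h4 := norm_four h hodd
  have h2n := h.norm_two hodd
  have hsq := norm_sq_add_one h hq hq4 hπq hrI
  by_cases hcase : ∃ k : ℕ, lam ^ k • P ∈ nb π (d : K) 0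
  · -- case (ii)
    obtain ⟨k, hk⟩ := hcase
    set x2 := nx (P + P) with hx2
    have hx2n : ‖x2‖ = 1 := by
      have := congrArg norm hdbl
      rw [norm_mul, norm_mul, h4, hfr1, norm_pow, hsq] at this
      simpa using this
    have hPP : P + P ∉ nb π (d : K) 0 := by
      rw [h.mem_nb_zero_iff hd, not_or, not_lt]
      exact ⟨hPP0, hx2n.le⟩
    obtain ⟨-, hx2I⟩ := dbl h hodd hq hq4 hπq hd hP (by rw [hPx]; exact hrI) hPP
    have hfx2 : ‖ff x2‖ = 1 := by
      have e1 : (4 * ff (r : K)) ^ 3 * ff x2 =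
          (((r ^ 2 + 1 : ℤ) : K) * ((r ^ 2 - 2 * r - 1 : ℤ) : K) *
            ((r ^ 2 + 2 * r - 1 : ℤ) : K)) ^ 2 := by
        have e2 : (4 * ff (r : K)) * x2 = ((r : K) ^ 2 + 1) ^ 2 := by
          linear_combination hdbl
        have e3 : (4 * ff (r : K)) * (x2 - 1) = ((r : K) ^ 2 - 2 * r - 1) ^ 2 := by
          unfold ff at e2 ⊢
          linear_combination e2
        have e4 : (4 * ff (r : K)) * (x2 + 1) = ((r : K) ^ 2 + 2 * r - 1) ^ 2 := by
          unfold ff at e2 ⊢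
          linear_combination e2
        have e5 : ff x2 = x2 * (x2 - 1) * (x2 + 1) := by unfold ff; ring
        calc (4 * ff (r : K)) ^ 3 * ff x2 = ((4 * ff (r : K)) * x2) * ((4 * ff (r : K)) * (x2 - 1)) *
              ((4 * ff (r : K)) * (x2 + 1)) := by rw [e5]; ring
          _ = _ := by
            rw [e2, e3, e4]
            push_cast
            ring
      have e6 := congrArg norm e1
      rw [norm_mul, norm_pow, norm_mul, h4, hfr1, norm_pow, norm_mul, norm_mul,
        norm_int_eq h hπq hr0, norm_int_eq h hπq hr2, norm_int_eq h hπq hr3] at e6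
      simpa using e6
    -- the product of the y-coordinates
    set w := yc (P + P) * yc P with hw
    have hwI : IM w := by
      obtain ⟨L, c, l1, l2, l3, l4, l5, l6⟩ := line_add hP0 hP0 hPP0
      simp only [hxc, hPx, ← hx2] at l1 l3 l4 l5 l6
      rw [hd2] at l5
      have e1 : 2 * w = -2 * (2 * (r : K) + x2) * (r * x2) + ((r : K) ^ 2 + 2 * r * x2 + 1) * (r + x2)
          - 2 * ((r : K) ^ 2 * x2) := by
        rw [hw, l1, l3]
        linear_combination (2 * (r : K) * x2) * l4 + (-((r : K) + x2)) * l5 + 2 * l6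
      have e2 : w = (-2 * (2 * (r : K) + x2) * (r * x2) + ((r : K) ^ 2 + 2 * r * x2 + 1) * (r + x2)
          - 2 * ((r : K) ^ 2 * x2)) * 2⁻¹ := by
        rw [← e1]
        have : (2 : K) ≠ 0 := two_ne_zero
        field_simp
      rw [e2]
      have i2 : IM (2 : K) := IM.ofNat 2
      have i2' : IM (-2 : K) := i2.neg
      have irx : IM ((r : K) * x2) := hrI.mul h hx2I
      refine IM.mul h ?_ (IM.inv h hq hπq i2 h2n)
      refine IM.sub h (IM.add h (IM.mul h (IM.mul h i2' ((i2.mul h hrI).add h hx2I)) irx) ?_) ?_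
      · refine IM.mul h (IM.add h (IM.add h (hrI.sq h) ?_) IM.one) (hrI.add h hx2I)
        exact (i2.mul h hrI).mul h hx2I
      · exact i2.mul h ((hrI.sq h).mul h hx2I)
    have hw1 : ‖w‖ = 1 := by
      have e1 : w ^ 2 = ff x2 * ff (r : K) := by
        rw [hw, mul_pow, yc_sq_nx hd, yc_sq_nx hd, hd3, hPx]
        ring
      have e2 := congrArg norm e1
      rw [norm_pow, norm_mul (ff x2), hfx2, hfr1, mul_one] at e2
      have := norm_nonneg w
      nlinarith
    have hco : IsCoprime (⟨2, 1⟩ : GaussianInt) (lam ^ k) ∧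
        IsCoprime (⟨2, -1⟩ : GaussianInt) (lam ^ k) := by
      constructor
      · apply IsCoprime.pow_right
        exact ⟨1, -1, by decide⟩
      · apply IsCoprime.pow_right
        exact ⟨gi, ⟨-1, -1⟩, by decide⟩
    have hnot : ∀ α : GaussianInt, IsCoprime α (lam ^ k) → α • P ∉ nb π (d : K) 0 := by
      rintro α ⟨u, v, huv⟩ hα
      apply hP
      have e1 : P = u • (α • P) + v • (lam ^ k • P) := by
        rw [← mul_smul, ← mul_smul, ← add_smul, huv, one_smul]
      rw [e1]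
      exact h.nb_add hd 0 (h.nb_smul d 0 u hα) (h.nb_smul d 0 v hk)
    set B := gi • P with hB
    have hB0 : B ≠ 0 := gi_smul_ne d hP0
    have hBx : nx B = -(r : K) := by rw [hB, nx_gi_smul, hPx]
    have hsum : (⟨2, 1⟩ : GaussianInt) • P = (P + P) + B := by
      have : (⟨2, 1⟩ : GaussianInt) = 1 + 1 + gi := by decide
      rw [this, add_smul, add_smul, one_smul]
    have hdif : (⟨2, -1⟩ : GaussianInt) • P = (P + P) - B := by
      have : (⟨2, -1⟩ : GaussianInt) = 1 + 1 - gi := by decide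
      rw [this, sub_smul, add_smul, one_smul]
    have hxx : ‖x2 - nx B‖ = 1 := by
      apply le_antisymm
      · refine (h.norm_sub_le _ _).trans (max_le hx2n.le ?_)
        rw [hBx, norm_neg]
        exact h.norm_intCast_le r
      · by_contra hlt
        push Not at hlt
        rcases h.res_diff hodd hd hPP0 hB0 hx2n.le (by rw [hBx, norm_neg]; exact h.norm_intCast_le r)
          hlt with h1 | h1
        · rw [← hdif] at h1
          exact hnot _ hco.2 h1
        · rw [← hsum] at h1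
          exact hnot _ hco.1 h1
    have hxxne : nx (P + P) ≠ nx B := by
      intro h0
      rw [← hx2] at h0
      rw [h0, sub_self, norm_zero] at hxx
      exact zero_ne_one hxx
    obtain ⟨hne, hadd⟩ := nx_add hd hPP0 hB0 hxxne
    rw [← hx2, hBx, hd3, hB, yc_gi_smul] at hadd
    rw [hBx, sub_neg_eq_add] at hxx
    have hxr : x2 + r ≠ 0 := by
      intro h0
      rw [h0, norm_zero] at hxx
      exact zero_ne_one hxx
    have hinvI : IM ((x2 + r) ^ 2)⁻¹ := by
      apply IM.inv h hq hπq ((hx2I.add h hrI).sq h)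
      rw [norm_pow, hxx, one_pow]
    apply fin d ((⟨2, 1⟩ : GaussianInt) • P) ((x2 * (-r) - 1) * (x2 - r) * ((x2 + r) ^ 2)⁻¹)
      (-2 * w * ((x2 + r) ^ 2)⁻¹)
    · rw [hsum]
      exact hne
    · have h1 := (h.Cl_coprime hA hco.1).1 hClP
      refine h.Cl_congr ?_ ?_ h1
      · rw [sub_self]
        exact zero_mem_nbh _ _ _
      · rw [zero_sub]
        exact neg_mem_nbh hk
    · exact (((hx2I.mul h hrI.neg).sub h IM.one).mul h (hx2I.sub h hrI)).mul h hinvI
    · exact (((IM.ofNat 2).neg.mul h hwI)).mul h hinvI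
    · rw [norm_mul, norm_mul, norm_neg, h2n, hw1, norm_inv, norm_pow, hxx]
      norm_num
    · rw [hsum, hB]
      have hxr2 : (x2 + r) ^ 2 ≠ 0 := pow_ne_zero 2 hxr
      field_simp
      rw [hw]
      linear_combination hadd
  · -- case (i)
    push Not at hcase
    obtain ⟨a, ha0, ha, -⟩ := h.expo_tame hodd d
    obtain ⟨k, a', hla, haa⟩ := WfDvdMonoid.max_power_factor ha0 irreducible_lam
    have h2p : ∀ j : ℕ, (2 : GaussianInt) ^ j • P ∉ nb π (d : K) 0 := by
      intro j hj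
      apply hcase (2 * j)
      rw [lam_pow, mul_smul]
      exact h.nb_smul d 0 _ hj
    have hstep : ∀ j : ℕ, (2 : GaussianInt) ^ (j + 1) • P =
        (2 : GaussianInt) ^ j • P + (2 : GaussianInt) ^ j • P := by
      intro j
      rw [pow_succ', mul_smul, two_smul]
    have hIM : ∀ j : ℕ, IM (nx ((2 : GaussianInt) ^ j • P)) := by
      intro j
      induction j with
      | zero => rw [pow_zero, one_smul, hPx]; exact hrI
      | succ j ih =>
        rw [hstep]
        refine (dbl h hodd hq hq4 hπq hd (h2p j) ih ?_).2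
        rw [← hstep]
        exact h2p (j + 1)
    set P' := (2 : GaussianInt) ^ k • P with hP'
    have hP'n : P' ∉ nb π (d : K) 0 := h2p k
    have hP'I : IM (nx P') := hIM k
    have hP'2 : P' + P' ∉ nb π (d : K) 0 := by
      have := h2p (k + 1)
      rwa [hstep] at this
    obtain ⟨hP'0, hP'1⟩ := not_mem_nb h hd hP'n
    obtain ⟨hff, -⟩ := dbl h hodd hq hq4 hπq hd hP'n hP'I hP'2
    obtain ⟨hx1, hx2⟩ := norm_of_ff h hP'1 hff
    have hx0 : nx P' ≠ 0 := by
      intro h0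
      rw [h0, norm_zero] at hx1
      exact zero_ne_one hx1
    have hmem : a' • P' ∈ nb π (d : K) 0 := by
      have h1 := h.nb_smul d 0 ((gi * gi * gi) ^ k * lam ^ k) (ha P)
      have h2 : ((gi * gi * gi) ^ k * lam ^ k * a) • P = a' • P' := by
        rw [hP', ← mul_smul]
        congr 1
        rw [haa]
        have e1 : (gi * gi * gi) ^ k * lam ^ k * (lam ^ k * a') =
            ((gi * gi * gi) * (lam * lam)) ^ k * a' := by ring
        have e2 : (gi * gi * gi) * (lam * lam) = (2 : GaussianInt) := by decide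
        rw [e1, e2, mul_comm]
      rw [← h2, mul_smul]
      exact h1
    have hCl' : Cl A d P' 0 := by
      apply hClRc d P' hP'n
      obtain ⟨n, hn⟩ := hIM k
      exact hRcongr n (nx P') (by rw [← neg_sub, norm_neg]; exact hn) (hRint n)
    have hcop : IsCoprime lam a' := irreducible_lam.coprime_iff_not_dvd.2 hla
    obtain ⟨hl0, hlx⟩ := nx_lam_smul d hP'0 hx0
    apply fin d (lam • P') 0 (-(nx P' ^ 2 - 1) * (2 * nx P')⁻¹) hl0
    · have h1 := (h.Cl_coprime hA hcop).1 hCl'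
      refine h.Cl_congr ?_ ?_ h1
      · rw [sub_self]
        exact zero_mem_nbh _ _ _
      · rw [zero_sub]
        exact neg_mem_nbh hmem
    · exact ⟨0, by simp⟩
    · refine IM.mul h (((hIM k).sq h).sub h IM.one).neg (IM.inv h hq hπq ((IM.ofNat 2).mul h (hIM k)) ?_)
      rw [norm_mul, h2n, hx1, mul_one]
    · rw [norm_mul, norm_neg, hx2, norm_inv, norm_mul, h2n, hx1]
      norm_num
    · rw [hlx]
      have hII := II_sq K
      have hII0 : II K ≠ 0 := II_ne
      have h20 : (2 : K) ≠ 0 := two_ne_zero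
      field_simp
      linear_combination (nx P' ^ 2 - 1) * hII

end TRF

end GWA.TRF
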